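import Pool.Agent.W537.PC.Final

/-!
# The Grothendieck period conjecture for abelian varieties with complex multiplication by
# abelian fields

Let `X` be a finite product of abelian varieties `A i` over `ℚ̄` of CM types `(E i, Φ i)`, where all
the fields `E i` are abelian over `ℚ`. Then a class of any degree `2 k` in the rational cohomology of
`X` is a de Rham-Betti class, that is, `(2 π i) ^ k f` lies in `H^{2k}_dR(X / ℚ̄)`, if and only if it
is a Hodge class. So for these varieties `GPC^k(X)` is equivalent to the Hodge conjecture in
codimension `k`.

The hypotheses are the two known theorems about the periods of abelian varieties of CM type:

* Bost: de Rham-Betti classes of degree two are classes of divisors, hence Hodge classes;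
* Deligne: Hodge classes are absolute Hodge classes, hence de Rham-Betti classes.

The proof: let `L` be a CM field, abelian over `ℚ` with group `G`, which contains all fields `E i`.
A de Rham-Betti class gives monomials in the periods which are algebraic together with all their
conjugates under `G`. If the class is not a Hodge class, the type of the monomial is a nonzero odd
integral function on `G`. By the theorem of Deligne the algebraic numbers so obtained depend only on
the types, and the types of all algebraic monomials form a `G`-stable saturated group of odd
functions. Over an abelian group every nonzero such group contains a nonzero function with values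
`0`, `1`, `-1` (for a character of order `m`, the products of the elements `1 - g` over elements `g`
of the prime orders dividing `m`, times the kernel). Such a function is the difference of the types
of two different CM types on `L`, and gives a de Rham-Betti class of degree two on the product of the
two abelian varieties which is not a Hodge class, in contradiction to the theorem of Bost.
-/

namespace Pool.Agent.Results.MP_bf54cf_ag.AbelianCMFields

open Pool.Agent.W537.PC Pool.Agent.W547.KB Pool.Agent.H204R3.CM

/-- `X` any product of abelian varieties with complex multiplication by fields abelian over `ℚ`,
`f ∈ H^{2k}(X, ℚ)` any class. -/
theorem result (P : PeriodSystem) (hB : P.Bost) (hD : P.Deligne) (X : CMAV)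
    (hX : ∀ i, IsAbelian (X.factor i).E) (k : ℕ) (f : X.H1 [⋀^Fin (2 * k)]→ₗ[ℚ] ℚ) :
    P.IsDRB X k f ↔ IsHodge X.per f :=
  ⟨hodge_of_drb P hB hD X hX k f, hD X k f⟩

end Pool.Agent.Results.MP_bf54cf_ag.AbelianCMFields
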