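import Pool.Agent.W537.PC.FamFinal

/-!
# The Grothendieck period conjecture for abelian varieties with complex multiplication by
# generic fields

Let `A i` be a finite family of abelian varieties over `ℚ̄` of CM types `(E i, Φ i)`, where the
fields `E i` are pairwise independent and each of them satisfies one of the following conditions:

* no pair of embeddings of `E i` is rigid (for instance every imaginary quadratic field, every field
  of degree four which is not Galois over `ℚ`, every field whose Galois group is the Weyl group);
* `E i` contains an imaginary quadratic field `k` and its rigid pairs form one orbit (for instance
  `E i = k F` with `F` a totally real field whose Galois group is transitive on unordered pairs);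
* the degree of `E i` is `2 p` for an odd prime number `p`.

There is no condition on the CM types. Let `X` be a product of copies of the `A i`. Then a class of
any degree `2 k` in the rational cohomology of `X` is a de Rham-Betti class, that is,
`(2 π i) ^ k f` lies in `H^{2k}_dR(X / ℚ̄)`, if and only if it is a Hodge class. So for these
varieties `GPC^k(X)` is equivalent to the Hodge conjecture in codimension `k`.

The hypotheses are the two known theorems about the periods of abelian varieties of CM type:

* Bost: de Rham-Betti classes of degree two are classes of divisors, hence Hodge classes;
* Deligne: Hodge classes are absolute Hodge classes, hence de Rham-Betti classes.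

The proof: let `G` be the Galois group of a Galois CM field `L` which contains all fields `E i`.
A de Rham-Betti class which is not a Hodge class gives a nonzero sum `F` of types `s_y` of
eigenforms, with odd multiplicities `m y`, such that the monomials in the periods are algebraic
for all conjugates of `F`. For an embedding `x` such that the `x`-component of `F` is not zero, the
averages of `F` over the stabilizer of `x`, and the other averages given by the conditions on the
field, show that a multiple of the type `s_x`, or of a sum or difference of few types, lies in the
group of algebraic relations. Such a type takes the values `0`, `1`, `-1` up to a multiple, and is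
the difference of the types of two different CM types on `L`. This gives a de Rham-Betti class of
degree two on a product of two abelian varieties which is not a Hodge class, in contradiction to the
theorem of Bost.
-/

namespace Pool.Agent.Results.MP_bf54cf_ag.GenericCMFields

open Pool.Agent.W537.PC Pool.Agent.W547.KB Pool.Agent.H204R3.CM Pool.Agent.W591.HC

/-- `copies A t` is the product of the abelian varieties of CM types `A (t a)`, `a ∈ J`, and
`f ∈ H^{2k}(X, ℚ)` is any class. -/
theorem result (P : PeriodSystem) (hB : P.Bost) (hD : P.Deligne) {ι : Type} [Fintype ι]
    (A : ι → CMPair) (hi : ∀ i k, i ≠ k → Independent (A i).E (A k).E)
    (hgen : ∀ i, NoRigid (A i).E ∨ QuadraticTransitive (A i).E ∨ TwicePrime (A i).E)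
    {J : Type} [Fintype J] (t : J → ι) (k : ℕ)
    (f : (copies A t).H1 [⋀^Fin (2 * k)]→ₗ[ℚ] ℚ) :
    P.IsDRB (copies A t) k f ↔ IsHodge (copies A t).per f :=
  ⟨hodge_of_drb_generic P hB hD hi hgen t k f, hD _ k f⟩

end Pool.Agent.Results.MP_bf54cf_ag.GenericCMFields
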