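import Mathlib
import Pool.Agent.W516.DRDefs
import Pool.Agent.W516.K3.Defs
import Pool.Agent.W516.K3.Defs3
import Pool.Agent.W516.K3.Link
import Pool.Agent.W516.K3.Main
import Pool.Agent.W516.K3.Hodge
import Pool.Agent.W516.K3.Total
import Pool.Agent.W516.K3.Final

/-!
# The period conjecture for the powers of a K3 surface

Let `X` be a projective K3 surface (or a projective hyper-Kähler variety) over an algebraically
closed subfield `K` of the complex numbers (the field of algebraic numbers) and `T` its
transcendental lattice, of rank `n ≥ 6`.  Assume that the Hodge structure `T` has no endomorphisms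
besides the scalars (this is automatic if `n` is an odd prime number).  We prove that

* all de Rham-Betti classes in all tensor powers of `H^2(X)(1)`, that is, on the powers of a K3
  surface `X`, are Hodge classes;
* those in the tensor powers of exponent less than `n` are linear combinations of products of the
  intersection form on `T` (a component of the class of the diagonal) and of the classes of
  divisors.  So they are algebraic: the statement `GPC^k(X^m)` holds for the K3 surface `X`,
  all `m` and all `k < n`.

In the Lean statement `T` is given with its intersection form `b`, of signature `(2, n - 2)`, and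
`ξ` is a `K`-structure on the space of the linear maps `T → ℂ`: this is the de Rham-Betti
structure on `T(1)`.  The space `k^c × T` is `H^2(X)(1)`, where `c` is the Picard number.  `H` is
the first homology of the Kuga-Satake abelian variety, the Clifford algebra of `T`, with the
de Rham-Betti structure `θ`, on which `T` acts by the multiplications `γ`.  The hypothesis `hγ` is
a theorem of Deligne and André, `hss` and `hend` are consequences of the analytic subgroup
theorem of Wüstholz and of the theorem of Zarhin on the Hodge group of `T`.

The proof: the Lie algebra `g` of the real endomorphisms of `T` that annihilate the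
de Rham-Betti classes is shown to act irreducibly, to be reductive and to contain the real
hyperbolic parts of its elements.  If no element had a nonzero hyperbolic part, the intersection form
would be definite, by a Perron-Frobenius argument.  Then the possible hyperbolic elements, of rank
two and four, are studied one after the other.
-/

namespace Pool.Agent.Results.MP_bf54cf_ag.PowersOfK3Surfaces

open Module TensorProduct Pool.Agent.W516.DR Pool.Agent.W516.K3

/-- De Rham-Betti classes on the powers of a K3 surface. -/
theorem result {k K : Type} [Field k] [CharZero k] [Field K] [IsAlgClosed K] [CharZero K]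
    [Algebra k K] [Algebra k ℂ] [Algebra K ℂ] [IsScalarTower k K ℂ] [Algebra k ℝ]
    [IsScalarTower k ℝ ℂ]
    -- the transcendental lattice with its intersection form and its periods
    {T : Type} [AddCommGroup T] [Module k T] [FiniteDimensional k T] (hn : 6 ≤ finrank k T)
    (b : T →ₗ[k] T →ₗ[k] k) (hsym : ∀ u v, b u v = b v u) (hnd : ∀ u, (∀ v, b u v = 0) → u = 0)
    (hsig : SignatureTwo (bx ℝ b))
    {ι : Type} [Fintype ι] [DecidableEq ι] (ξ : Basis ι ℂ (T →ₗ[k] ℂ))
    -- the Kuga-Satake abelian variety
    {H : Type} [AddCommGroup H] [Module k H] [FiniteDimensional k H] [Nontrivial H]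
    {ν : Type} [Fintype ν] [DecidableEq ν] (θ : Basis ν ℂ (H →ₗ[k] ℂ))
    (γ : T →ₗ[k] Module.End k H)
    (hcl : ∀ u v, γ u * γ v + γ v * γ u = (2 * b u v) • (1 : Module.End k H))
    (hγ : IsDRBAction K ξ θ γ)
    -- the theorem of Wüstholz
    (hss : DeRhamBettiSemisimple K θ)
    (hend : ∀ P : Module.End k H, IsDeRhamBettiEnd K θ P →
      ∀ u v, P * (γ u * γ v) = (γ u * γ v) * P)
    -- a de Rham-Betti class in a tensor power of the second cohomology
    (c : ℕ) (hc : 0 < c) {κ : Type} [Fintype κ] [DecidableEq κ]
    (φ : MultilinearMap k (fun _ : κ => (Fin c → k) × T) k) (hφ : IsDRBForm K (perSum c ξ) φ) :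
    (∀ σ : ℂ ⊗[k] T, bx ℂ b σ σ = 0 → bx ℂ b σ (conjT σ) ≠ 0 →
      IsHodgeForm (bSum c b) (inrC c ℂ σ) φ) ∧
    (Fintype.card κ < finrank k T → φ ∈ Submodule.span k {ψ | IsMonomial b ψ}) :=
  drb_total ξ θ b γ hsym hnd hn hsig hcl hγ hss hend c hc φ hφ

end Pool.Agent.Results.MP_bf54cf_ag.PowersOfK3Surfaces
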