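import Pool.Agent.W544.K3.Iff

/-!
# The Grothendieck period conjecture for cycles on products of K3 surfaces

Let `S_0, ..., S_(N-1)` be K3 surfaces over the algebraic numbers, `T_i` the transcendental part of
`H^2(S_i)(1)` and `T = ⊕ T_i`, of rank `n`; the structure `Multi n N` consists of the
intersection forms, the classes `ω i` of the holomorphic two-forms and the period matrix `D` of
`T`.  Assume that the only Hodge endomorphisms of `T` are the scalars on the summands `T_i`
(`Scalar`), and that the rank of `T_i` is not `4` or `5` (it is at least `3`).

The total cohomology of the surfaces is considered as a part of `ℚ^s ⊕ T`, where `ℚ^s` is spanned by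
algebraic classes (in degrees `0`, `2`, `4`).  A class on a product of the surfaces is called
algebraic here if it is a linear combination of products of algebraic classes of the surfaces and
of transcendental parts of diagonals.  We prove
that `GPC^k` for all `k` and for all products in which `S_i` occurs less than `rank T_i` times
follows from `GPC^2` for the products `S_i × S_j`: if the object `T` is semisimple and all
de Rham-Betti classes on the products of two of the surfaces are algebraic (both facts are known
theorems of Wuestholz and of Kreutz, Shen and Vial), then a de Rham-Betti class on a product of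
any number of the surfaces, whose Kuenneth components involve `T_i` in less than `rank T_i`
factors for every `i`, is algebraic.
-/

open Module Finset

namespace Pool.Agent.Results.MP_bf54cf_ag.ProductsOfK3Surfaces

open Pool.Agent.W544.K3

/-- De Rham-Betti classes on products of K3 surfaces: all codimensions from codimension two. -/
theorem result {n N : ℕ} (X : Multi n N) (hN : 0 < N) (hS : X.Scalar)
    (hdim : ∀ i, 3 ≤ X.rk i ∧ X.rk i ≠ 4 ∧ X.rk i ≠ 5) :
    (X.Semisimple ∧ ∀ (s : ℕ) (t : (Fin 2 → Fin s ⊕ Fin n) → ℚ), X.IsDRB' t →
      t ∈ X.algClasses s 2) ↔
    (X.Semisimple ∧ ∀ (s m : ℕ) (t : (Fin m → Fin s ⊕ Fin n) → ℚ), X.IsDRB' t →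
      (∀ I, t I ≠ 0 → ∀ i,
        (univ.filter fun j => ∃ a, I j = Sum.inr a ∧ X.c a = i).card < X.rk i) →
      t ∈ X.algClasses s m) :=
  alg_iff X hN hS hdim

end Pool.Agent.Results.MP_bf54cf_ag.ProductsOfK3Surfaces
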